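import Pool.Agent.CYD.Graph

/-!
# Redicolouring with more colours than the maximum cycle-degree
-/

set_option autoImplicit false

namespace Pool.Agent.Results.MP_afd62f_co.CycleDegree

open Pool.Agent.CYD Relation Finset

/-- Let `D` be a digraph without loops on `n` vertices. If `k` is at least the cycle-degeneracy plus
two and at least the maximum cycle-degree plus one, then any two `k`-dicolourings are joined by a walk
of length at most `k (n ^ 2 + 3 n)`. -/
theorem result (V : Type) [Fintype V] (D : V → V → Prop) (hl : ∀ v, ¬ D v v) (k : ℕ)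
    (hk : cycDegeneracy D + 2 ≤ k) (hd : ∀ v, cycDeg D v + 1 ≤ k) :
    ∀ α β : {f : V → Fin k // IsDicol D f},
      ∃ p : (dicolGraph D k).Walk α β,
        p.length ≤ k * (Fintype.card V ^ 2 + 3 * Fintype.card V) := by
  classical
  intro α β
  obtain ⟨L, hL, hp⟩ := exists_pthB (D := D) (k := k)
    (fun U hU => exists_small hl hk U hU (fun a b => D a b ∧ a ∈ U ∧ b ∈ U) (fun a b h => h))
    (by
      intro v
      obtain ⟨S, hS, hc⟩ := exists_hits hl v
      have := hd v
      exact ⟨S, by omega, hS⟩)
    α.1 β.1 (isDicol_iff.1 α.2) (isDicol_iff.1 β.2)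
  obtain ⟨p, hp⟩ := exists_walk (D := D) (fun T hT => hT) hp α.2 β.2
  exact ⟨p, hp.trans hL⟩

end Pool.Agent.Results.MP_afd62f_co.CycleDegree
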