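import Pool.Agent.CYD.Graph

/-!
# Quadratic redicolouring for digraphs of bounded out-degree
-/

set_option autoImplicit false

namespace Pool.Agent.Results.MP_afd62f_co.OutDegree

open Pool.Agent.CYD Relation Finset

/-- Let `D` be a digraph without loops on `n` vertices and `k` at least its cycle-degeneracy plus two.
If every vertex has at most `k - 1` out-neighbours in its strong component or cycle-degree at most
`k - 2`, then any two `k`-dicolourings are joined by a walk of length at most `9 n ^ 2`. -/
theorem result (V : Type) [Fintype V] (D : V → V → Prop) (hl : ∀ v, ¬ D v v) (k : ℕ)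
    (hk : cycDegeneracy D + 2 ≤ k)
    (hd : ∀ v, (strongOut D v).card + 1 ≤ k ∨ cycDeg D v + 2 ≤ k) :
    ∀ α β : {f : V → Fin k // IsDicol D f},
      ∃ p : (dicolGraph D k).Walk α β, p.length ≤ 9 * Fintype.card V ^ 2 := by
  classical
  intro α β
  have hlE : ∀ v, ¬ (D v v ∧ ReflTransGen D v v) := fun v h => hl v h.1
  obtain ⟨L, hL, hp⟩ := exists_pth (D := fun a b => D a b ∧ ReflTransGen D b a) hlE (k := k)
    (by
      intro U hU
      obtain ⟨z, hz, S, hS, hH⟩ := exists_small hl hk U hU
        (fun a b => (D a b ∧ ReflTransGen D b a) ∧ a ∈ U ∧ b ∈ U)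
        (fun a b h => ⟨h.1.1, h.2.1, h.2.2⟩)
      exact ⟨z, hz, S, hS, hH⟩)
    (by
      intro v
      rcases hd v with h | h
      · left
        intro X hX
        have : X.card ≤ (strongOut D v).card := by
          refine card_le_card fun x hx => ?_
          unfold strongOut
          exact mem_filter.2 ⟨mem_univ _, hX x hx⟩
        omega
      · right
        obtain ⟨S, hS, hc⟩ := exists_hits hl v
        exact ⟨S, by omega, hS.mono fun a b h => h.1⟩)
    α.1 β.1
    (fun c v hv => α.2 c v (TransGen.mono (fun a b h =>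
      ⟨h.1.1, (mem_filter.1 h.2.1).2, (mem_filter.1 h.2.2).2⟩) _ _ hv))
    (fun c v hv => β.2 c v (TransGen.mono (fun a b h =>
      ⟨h.1.1, (mem_filter.1 h.2.1).2, (mem_filter.1 h.2.2).2⟩) _ _ hv))
  obtain ⟨p, hp⟩ := exists_walk (D := D) (fun T hT => acyc_of_strong hT) hp α.2 β.2
  exact ⟨p, hp.trans hL⟩

end Pool.Agent.Results.MP_afd62f_co.OutDegree
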